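import Mathlib
import Pool.Agent.MP_c45dcf_an.Core
import Pool.Agent.MP_c45dcf_an.Transfer

set_option autoImplicit false
open scoped Pointwise

namespace Pool.Agent.Results.MP_c45dcf_an.SectionsCounterexample

/-- origin-symmetric convex body -/
def Body {n : ℕ} (K : Set (EuclideanSpace ℝ (Fin n))) : Prop :=
  Convex ℝ K ∧ IsCompact K ∧ (interior K).Nonempty ∧ ∀ x ∈ K, -x ∈ K

/-- the section of `K` by the subspace `E`, as a subset of `E` -/
def sec {n : ℕ} (K : Set (EuclideanSpace ℝ (Fin n))) (E : Submodule ℝ (EuclideanSpace ℝ (Fin n))) :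
    Set E := {x : E | (x : EuclideanSpace ℝ (Fin n)) ∈ K}

/-- `t` is admissible in the definition of the Banach-Mazur distance of `A` and `B` -/
def Within {V : Type} [AddCommGroup V] [Module ℝ V] (A B : Set V) (t : ℝ) : Prop :=
  ∃ T : V ≃ₗ[ℝ] V, B ⊆ T '' A ∧ T '' A ⊆ t • B

/-- There is a constant `b ≥ 1` such that for every `ρ` there are origin-symmetric convex bodies
`K`, `L` in some `ℝⁿ` all of whose sections of dimension `[n/2]` are within Banach-Mazur distance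
`b`, while the Banach-Mazur distance of `K` and `L` is at least `ρ`. -/
theorem result : ∃ b : ℝ, 1 ≤ b ∧ ∀ ρ : ℝ,
    ∃ (n : ℕ) (K L : Set (EuclideanSpace ℝ (Fin n))), Body K ∧ Body L ∧
      (∀ E : Submodule ℝ (EuclideanSpace ℝ (Fin n)), Module.finrank ℝ E = n / 2 →
        Within (sec K E) (sec L E) b) ∧
      ∀ t : ℝ, 1 ≤ t → Within K L t → ρ < t := by
  have key : ∀ {V : Type} [AddCommGroup V] [Module ℝ V] (A B : Set V) (T : V ≃ₗ[ℝ] V) (t : ℝ),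
      T '' A ⊆ B → B ⊆ t • (T '' A) → A ⊆ T.symm '' B ∧ T.symm '' B ⊆ t • A := by
    intro V _ _ A B T t h1 h2
    refine ⟨fun x hx => ⟨T x, h1 ⟨x, hx, rfl⟩, T.symm_apply_apply x⟩, ?_⟩
    rintro _ ⟨y, hy, rfl⟩
    obtain ⟨_, ⟨x, hx, rfl⟩, rfl⟩ := h2 hy
    exact ⟨x, hx, by simp⟩
  have key2 : ∀ {V : Type} [AddCommGroup V] [Module ℝ V] (A B : Set V) (T : V ≃ₗ[ℝ] V) (t : ℝ),
      A ⊆ T '' B → T '' B ⊆ t • A → T.symm '' A ⊆ B ∧ B ⊆ t • (T.symm '' A) := by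
    intro V _ _ A B T t h1 h2
    constructor
    · rintro _ ⟨x, hx, rfl⟩
      obtain ⟨y, hy, rfl⟩ := h1 hx
      simpa using hy
    · intro y hy
      obtain ⟨x, hx, e⟩ := h2 ⟨y, hy, rfl⟩
      refine ⟨T.symm x, ⟨x, hx, rfl⟩, ?_⟩
      have e2 : t • x = T y := e
      show t • T.symm x = y
      rw [← map_smul, e2, T.symm_apply_apply]
  obtain ⟨b, hb, h⟩ := Pool.Agent.MP_c45dcf_an.robust_of_core Pool.Agent.MP_c45dcf_an.coreStmt
  refine ⟨b, hb, fun ρ => ?_⟩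
  obtain ⟨n, K, L, a1, a2, a3, a4, b1, b2, b3, b4, hE, hT⟩ := h ρ
  refine ⟨n, L, K, ⟨b1, b2, b3, b4⟩, ⟨a1, a2, a3, a4⟩, fun E hE' => ?_,
    fun t ht ⟨T, h1, h2⟩ => ?_⟩
  · obtain ⟨T, h1, h2⟩ := hE E hE' b le_rfl
    exact ⟨T.symm, key _ _ T b h1 h2⟩
  · by_contra hc
    exact hT T.symm t (by rw [abs_of_pos (by linarith)]; exact not_lt.mp hc) (key2 _ _ T t h1 h2)

end Pool.Agent.Results.MP_c45dcf_an.SectionsCounterexample
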